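import Pool.Agent.W977.CG.Spec

set_option autoImplicit false

/-! Part PROD of project CG (helper977): the generating function of `S ⧸ (θ)`. -/

namespace Pool.Agent.W854.CG

open W977.CG

section

variable {k S : Type} [Field k] [CommRing S] [Algebra k S]

lemma hf_bot (𝒜 : ℕ → Submodule k S) (n : ℕ) :
    hf 𝒜 (⊥ : Ideal S) n = Module.finrank k (𝒜 n) := by
  unfold hf
  have hinj : Function.Injective (Ideal.Quotient.mkₐ k (⊥ : Ideal S)).toLinearMap := by
    intro x y hxy
    have h : Ideal.Quotient.mk (⊥ : Ideal S) x = Ideal.Quotient.mk (⊥ : Ideal S) y := hxy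
    rw [Ideal.Quotient.eq, Ideal.mem_bot, sub_eq_zero] at h
    exact h
  exact (Submodule.equivMapOfInjective _ hinj (𝒜 n)).finrank_eq.symm

/-- the ideal generated by the first `l` elements -/
def Jl {D : ℕ} (θ : Fin D → S) (l : ℕ) : Ideal S :=
  Ideal.span (θ '' {j : Fin D | (j : ℕ) < l})

lemma Jl_zero {D : ℕ} (θ : Fin D → S) : Jl θ 0 = ⊥ := by
  unfold Jl
  have : {j : Fin D | (j : ℕ) < 0} = ∅ := by
    ext j; simp
  rw [this, Set.image_empty, Ideal.span_empty]

lemma Jl_succ {D : ℕ} (θ : Fin D → S) (l : ℕ) (h : l < D) :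
    Jl θ (l + 1) = Jl θ l ⊔ Ideal.span {θ ⟨l, h⟩} := by
  unfold Jl
  have : {j : Fin D | (j : ℕ) < l + 1} = {j : Fin D | (j : ℕ) < l} ∪ {⟨l, h⟩} := by
    ext j
    simp only [Set.mem_setOf_eq, Set.mem_union, Set.mem_singleton_iff, Fin.ext_iff]
    omega
  rw [this, Set.image_union, Set.image_singleton, Ideal.span_union]

lemma Jl_top {D : ℕ} (θ : Fin D → S) : Jl θ D = Ideal.span (Set.range θ) := by
  unfold Jl
  have : {j : Fin D | (j : ℕ) < D} = Set.univ := by
    ext j
    simp [j.isLt]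
  rw [this, Set.image_univ]

lemma step_series (f g : ℕ → ℕ) (e : ℕ) (h1 : ∀ n, n < e → g n = f n)
    (h2 : ∀ n, g (n + e) + f n = f (n + e)) :
    PowerSeries.mk (fun n => (g n : ℚ))
      = PowerSeries.mk (fun n => (f n : ℚ)) * (1 - PowerSeries.X ^ e) := by
  ext n
  rw [mul_sub, mul_one, map_sub, PowerSeries.coeff_mul_X_pow', PowerSeries.coeff_mk,
    PowerSeries.coeff_mk]
  split_ifs with h
  · obtain ⟨m, rfl⟩ := Nat.exists_eq_add_of_le' h
    rw [Nat.add_sub_cancel, PowerSeries.coeff_mk]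
    have := h2 m
    have h3 : (g (m + e) : ℚ) + (f m : ℚ) = (f (m + e) : ℚ) := by exact_mod_cast this
    linarith
  · rw [h1 n (by omega), sub_zero]

end

theorem part (hstep : W977.CG.PartStep) : W977.CG.PartProd := by
  intro k S _ _ _ 𝒜 _ _ D e θ hθ hreg
  have key : ∀ l, l ≤ D →
      PowerSeries.mk (fun n => (Module.finrank k (𝒜 n) : ℚ))
        * ∏ i ∈ Finset.univ.filter (fun j : Fin D => (j : ℕ) < l), (1 - PowerSeries.X ^ e i)
      = PowerSeries.mk (fun n => (hf 𝒜 (Jl θ l) n : ℚ)) := by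
    intro l
    induction l with
    | zero =>
      intro _
      have : Finset.univ.filter (fun j : Fin D => (j : ℕ) < 0) = ∅ := by
        ext j; simp
      rw [this, Finset.prod_empty, mul_one, Jl_zero]
      congr 1
      ext n
      rw [hf_bot]
    | succ l ih =>
      intro hl
      have hl' : l < D := hl
      have hfil : Finset.univ.filter (fun j : Fin D => (j : ℕ) < l + 1)
          = insert (⟨l, hl'⟩ : Fin D) (Finset.univ.filter (fun j : Fin D => (j : ℕ) < l)) := by
        ext j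
        simp only [Finset.mem_filter, Finset.mem_univ, true_and, Finset.mem_insert, Fin.ext_iff]
        omega
      have hnot : (⟨l, hl'⟩ : Fin D) ∉ Finset.univ.filter (fun j : Fin D => (j : ℕ) < l) := by
        simp
      have hhom : (Jl θ l).IsHomogeneous 𝒜 := by
        unfold Jl
        apply Ideal.homogeneous_span
        rintro x ⟨j, _, rfl⟩
        exact ⟨e j, hθ j⟩
      have hs := hstep k S 𝒜 (Jl θ l) hhom (e ⟨l, hl'⟩) (θ ⟨l, hl'⟩) (hθ _)
        (fun x hx => hreg ⟨l, hl'⟩ x hx)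
      rw [hfil, Finset.prod_insert hnot, mul_comm (1 - PowerSeries.X ^ e ⟨l, hl'⟩), ← mul_assoc,
        ih (by omega), Jl_succ θ l hl']
      exact (step_series _ _ _ hs.1 hs.2).symm
  have h := key D le_rfl
  have hfil : Finset.univ.filter (fun j : Fin D => (j : ℕ) < D) = Finset.univ := by
    ext j; simp [j.isLt]
  rw [hfil, Jl_top] at h
  exact h

end Pool.Agent.W854.CG
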